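import Pool.Agent.X13.CB.Auto4b

/-!
# MP_b3d406_nt: `φ_4(S_{4,m}(n))` is 4-automatic for `m ≢ 6 (mod 8)`

Proof.  `∑ S_{4,m}(n) x^n = W^m` with `W = v(x) v(x^4) v(x^16) ...`, `v = (1-x^4)/(1-x)^4`, and
`W^2 = 1 + 4A` where `A = α + A(x^4) + 4 α A(x^4)`, `v^2 = 1 + 4α`.  The coefficients of `A` modulo
`8` follow from this functional equation.  For even `m` expand `(1+4A)^{m/2}`; for odd `m` use
`W^m = W^{-1} (W^2)^{(m+1)/2}` where the coefficients of `W^{-1} = (1-x) ∏ (1-x^(4^i))^3` are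
explicit.  The result is that for `n ≥ 1` the 2-adic valuation of `S_{4,m}(n)` is an explicit function
of the 2-adic valuation of `n`, eventually periodic with period 4, which makes the 4-kernel finite.
-/

namespace Pool.Agent.Results.MP_b3d406_nt.AutomaticValuation

open PowerSeries Finset

/-- `S_{k,m}(n)`: the coefficient of `x^n` in
`(1-x)^(-m) ∏_{i ≤ n} (1-x^(k^i))^(-m(k-1))`; for `k ≥ 2` the factors with `i > n` do not matter. -/
noncomputable def S (k m n : ℕ) : ℤ :=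
  coeff n ((invOfUnit (1 - X) 1 : ℤ⟦X⟧) ^ m
    * ∏ i ∈ range (n + 1), (invOfUnit (1 - X ^ (k ^ i)) 1 : ℤ⟦X⟧) ^ (m * (k - 1)))

theorem inv_spec (k i : ℕ) (hk : 2 ≤ k) :
    (1 - X ^ (k ^ i)) * (invOfUnit (1 - X ^ (k ^ i)) 1 : ℤ⟦X⟧) = 1 := by
  apply PowerSeries.mul_invOfUnit
  rw [map_sub, map_one, map_pow, constantCoeff_X, zero_pow (by positivity), sub_zero]
  rfl

theorem stable (k m n N : ℕ) (hk : 2 ≤ k) (h : n + 1 ≤ N) :
    coeff n ((invOfUnit (1 - X) 1 : ℤ⟦X⟧) ^ m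
      * ∏ i ∈ range N, (invOfUnit (1 - X ^ (k ^ i)) 1 : ℤ⟦X⟧) ^ (m * (k - 1))) = S k m n := by
  induction N, h using Nat.le_induction with
  | base => rfl
  | succ N hN ih =>
    rw [← ih]
    set G := (invOfUnit (1 - X ^ (k ^ N)) 1 : ℤ⟦X⟧) with hG
    have h0 : G = 1 + X ^ (k ^ N) * G := by
      have := inv_spec k N hk
      linear_combination this
    have h1 : ∀ M : ℕ, ∃ c, G ^ M = 1 + X ^ (k ^ N) * c := by
      intro M
      induction M with
      | zero => exact ⟨0, by simp⟩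
      | succ M ihM =>
        obtain ⟨c, hc⟩ := ihM
        refine ⟨c + G * (1 + X ^ (k ^ N) * c), ?_⟩
        rw [pow_succ, hc]
        conv_lhs => rw [h0]
        ring
    obtain ⟨c, hc⟩ := h1 (m * (k - 1))
    rw [prod_range_succ, ← hG, hc]
    have hlt : n < k ^ N := lt_of_lt_of_le (by omega : n < N)
      ((Nat.lt_two_pow_self).le.trans (Nat.pow_le_pow_left hk N))
    rw [mul_add, mul_one, mul_add, map_add, show ∀ a b : ℤ⟦X⟧, a * (b * (X ^ (k ^ N) * c))
      = X ^ (k ^ N) * (a * b * c) from fun a b => by ring, coeff_X_pow_mul', if_neg (by omega),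
      add_zero]

theorem S_eq (m n : ℕ) : S 4 m n = coeff n (X13.CB.HH m) := by
  have h1 : (invOfUnit (1 - X) 1 : ℤ⟦X⟧) = X13.CB.y := by
    rw [← X13.CB.gi_zero]
    unfold X13.CB.gi
    rw [pow_zero, pow_one]
  unfold S X13.CB.HH
  rw [X13.CB.coeff_QQ_pow (X13.CB.y ^ m) (3 * m) n (n + 1) le_rfl, h1]
  congr 2
  unfold X13.CB.Q4
  rw [← prod_pow]
  refine prod_congr rfl fun i _ => ?_
  unfold X13.CB.gi
  rw [pow_mul 2 2 i]
  norm_num
  congr 1
  ring

theorem pos (m n : ℕ) (hm : 0 < m) : 0 < S 4 m n := by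
  have hgeo : ∀ i, X13.CB.gi (2 * i) = X13.TT.geo (2 ^ (2 * i)) := by
    intro i
    have h1 := X13.CB.gi_mul (2 * i)
    have h2 := X13.TT.one_sub_mul_geo (d := 2 ^ (2 * i)) (by positivity)
    linear_combination X13.TT.geo (2 ^ (2 * i)) * h1 - X13.CB.gi (2 * i) * h2
  have hpow : ∀ (f : ℤ⟦X⟧) (M : ℕ), X13.TT.NN f → X13.TT.NN (f ^ M) := by
    intro f M hf
    induction M with
    | zero => rw [pow_zero]; exact X13.TT.NN.one
    | succ M ih => rw [pow_succ]; exact ih.mul hf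
  have hQ : ∀ N, X13.TT.NN (X13.CB.Q4 N) := by
    intro N
    unfold X13.CB.Q4
    exact X13.TT.NN.prod _ _ fun i _ => by rw [hgeo]; exact X13.TT.NN.geo _
  have hy : X13.TT.NN X13.CB.y := by rw [← X13.CB.geo_one_eq]; exact X13.TT.NN.geo _
  obtain ⟨m, rfl⟩ : ∃ m', m = m' + 1 := ⟨m - 1, by omega⟩
  rw [S_eq]
  unfold X13.CB.HH
  rw [X13.CB.coeff_QQ_pow (X13.CB.y ^ (m + 1)) _ n (n + 1) le_rfl, pow_succ', mul_assoc]
  set R := X13.CB.y ^ m * X13.CB.Q4 (n + 1) ^ (3 * (m + 1)) with hR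
  have hRN : X13.TT.NN R := (hpow _ _ hy).mul (hpow _ _ (hQ _))
  have hR0 : coeff 0 R = 1 := by
    have h0 : ∀ i, constantCoeff (X13.CB.gi i) = 1 := by
      intro i
      have h1 := congrArg constantCoeff (X13.CB.gi_mul i)
      rw [map_mul, map_sub, map_one, map_pow, constantCoeff_X, zero_pow (by positivity),
        sub_zero, one_mul] at h1
      exact h1
    rw [hR, coeff_zero_eq_constantCoeff_apply, map_mul, map_pow, map_pow,
      X13.CB.constantCoeff_y]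
    unfold X13.CB.Q4
    rw [map_prod, prod_congr rfl fun i _ => h0 (2 * i)]
    simp
  rw [coeff_mul]
  refine sum_pos' (fun p _ => mul_nonneg (hy _) (hRN _)) ⟨(n, 0), ?_, ?_⟩
  · rw [HasAntidiagonal.mem_antidiagonal]; rfl
  · rw [hR0]
    unfold X13.CB.y
    rw [coeff_mk]; norm_num

/-- `φ_4(S_{4,m}(n))`: the largest `s` with `4^s ∣ S_{4,m}(n)` -/
noncomputable def phi4 (m n : ℕ) : ℕ := multiplicity (4 : ℤ) (S 4 m n)

/-- `e` is `k`-automatic: its `k`-kernel is finite -/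
def IsAutomatic (k : ℕ) (e : ℕ → ℕ) : Prop :=
  Set.Finite {s : ℕ → ℕ | ∃ i j : ℕ, j < k ^ i ∧ s = fun n => e (k ^ i * n + j)}

/-- the 2-adic valuation of `S_{4,m}(n)` in terms of `b = ν₂(n)`, `n ≥ 1`, `m ≢ 6 (mod 8)` -/
def val (m b : ℕ) : ℕ :=
  if m % 2 = 1 then
    if b % 4 = 0 then 2 else if b % 4 = 3 then padicValNat 2 (m + 1) + 1 else 1
  else if b % 2 = 1 then padicValNat 2 m + 1
  else if b = 0 ∨ m % 4 = 0 then padicValNat 2 m + 2 else 4

theorem padic_eq (a p : ℕ) (hp : p % 2 = 1) : padicValNat 2 (2 ^ a * p) = a := by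
  haveI : Fact (Nat.Prime 2) := ⟨Nat.prime_two⟩
  rw [padicValNat.mul (by positivity) (by omega), padicValNat.prime_pow,
    padicValNat.eq_zero_of_not_dvd (by omega), add_zero]

theorem mult4 {e : ℕ} {s : ℤ} (h : X13.CB.Ev e s) : multiplicity (4 : ℤ) s = e / 2 := by
  obtain ⟨o, ho, rfl⟩ := h
  have h4 : ∀ k : ℕ, (4 : ℤ) ^ k = 2 ^ (2 * k) := fun k => by rw [pow_mul]; norm_num
  apply multiplicity_eq_of_dvd_of_not_dvd
  · rw [h4]
    exact Dvd.dvd.mul_right (pow_dvd_pow 2 (by omega)) _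
  · rw [h4]
    intro hd
    have h1 : (2 : ℤ) ^ (e + 1) ∣ 2 ^ e * o := (pow_dvd_pow 2 (by omega)).trans hd
    obtain ⟨c, hc⟩ := h1
    rw [pow_succ, mul_assoc] at hc
    have : o = 2 * c := mul_left_cancel₀ (pow_ne_zero e two_ne_zero) hc
    rw [this] at ho
    exact (Int.not_even_iff_odd.mpr ho) (even_two_mul c)

theorem Ev_val (m b q : ℕ) (hm : 0 < m) (hm6 : m % 8 ≠ 6) (hq : q % 2 = 1) :
    X13.CB.Ev (val m b) (S 4 m (2 ^ b * q)) := by
  rw [S_eq, X13.CB.HH_pow]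
  unfold val
  by_cases h2 : m % 2 = 1
  · rw [if_pos h2]
    obtain ⟨c, p, hp, hmp⟩ := Nat.exists_eq_two_pow_mul_odd (n := m + 1) (by omega)
    have hp' : p % 2 = 1 := Nat.odd_iff.mp hp
    obtain ⟨a, rfl⟩ : ∃ a, c = a + 1 := by
      rcases Nat.eq_zero_or_pos c with rfl | hc
      · rw [pow_zero, one_mul] at hmp; omega
      · exact ⟨c - 1, by omega⟩
    obtain ⟨v0, v1, v2, v3⟩ := X13.CB.val_odd a p b q m hp' hq hmp
    rw [hmp, padic_eq _ _ hp']
    by_cases hb0 : b % 4 = 0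
    · rw [if_pos hb0]; exact v0 hb0
    rw [if_neg hb0]
    by_cases hb3 : b % 4 = 3
    · rw [if_pos hb3]; exact v3 hb3
    rw [if_neg hb3]
    rcases (by omega : b % 4 = 1 ∨ b % 4 = 2) with h | h
    · exact v1 h
    · exact v2 h
  · rw [if_neg h2]
    obtain ⟨a, p, hp, hmp⟩ := Nat.exists_eq_two_pow_mul_odd (n := m / 2) (by omega)
    have hp' : p % 2 = 1 := Nat.odd_iff.mp hp
    have hm2 : m = 2 * (2 ^ a * p) := by omega
    have hpad : padicValNat 2 m = a + 1 := by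
      rw [hm2, ← mul_assoc, ← pow_succ', padic_eq _ _ hp']
    obtain ⟨v0, v1, v2, v3⟩ := X13.CB.val_even a p b q hp' hq
    rw [← hm2] at v0 v1 v2 v3
    rw [hpad]
    by_cases hb1 : b % 2 = 1
    · rw [if_pos hb1]; exact v0 hb1
    rw [if_neg hb1]
    rcases Nat.eq_zero_or_pos b with hb | hb
    · rw [if_pos (Or.inl hb)]; exact v1 hb
    rcases Nat.eq_zero_or_pos a with ha | ha
    · subst ha
      rw [pow_zero, one_mul] at hm2
      rw [if_neg (by omega)]
      exact v3 (by omega) hb rfl (by omega)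
    · have h4 : m % 4 = 0 := by
        obtain ⟨a', rfl⟩ : ∃ a', a = a' + 1 := ⟨a - 1, by omega⟩
        have : m = 4 * (2 ^ a' * p) := by rw [hm2, pow_succ]; ring
        omega
      rw [if_pos (Or.inr h4)]
      exact v2 (by omega) hb ha

theorem result :
    -- longer products do not change the coefficient
    (∀ k m n N : ℕ, 2 ≤ k → n + 1 ≤ N →
      coeff n ((invOfUnit (1 - X) 1 : ℤ⟦X⟧) ^ m
        * ∏ i ∈ range N, (invOfUnit (1 - X ^ (k ^ i)) 1 : ℤ⟦X⟧) ^ (m * (k - 1))) = S k m n) ∧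
    -- the numbers are positive, and `phi4` is the exact exponent of `4`
    (∀ m n : ℕ, 0 < m → 0 < S 4 m n ∧ (4 : ℤ) ^ phi4 m n ∣ S 4 m n ∧
      ¬ (4 : ℤ) ^ (phi4 m n + 1) ∣ S 4 m n) ∧
    -- Q1 is true
    (∀ m : ℕ, 0 < m → m % 8 ≠ 6 → IsAutomatic 4 (phi4 m)) ∧
    -- the exact valuation
    (∀ m n : ℕ, 0 < m → m % 8 ≠ 6 → 0 < n →
      emultiplicity (2 : ℤ) (S 4 m n) = (val m (padicValNat 2 n) : ℕ∞)) := by
  refine ⟨fun k m n N hk h => stable k m n N hk h, ?_, ?_, ?_⟩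
  · intro m n hm
    have hp := pos m n hm
    have hfin : FiniteMultiplicity (4 : ℤ) (S 4 m n) := by
      rw [Int.finiteMultiplicity_iff]
      exact ⟨by norm_num, by omega⟩
    refine ⟨hp, pow_multiplicity_dvd _ _, ?_⟩
    exact hfin.not_pow_dvd_of_multiplicity_lt (Nat.lt_succ_self _)
  · intro m hm hm6
    refine X13.CB.automatic (phi4 m) (fun b => val m b / 2) ?_ ?_
    · intro b hb
      have : val m (b + 4) = val m b := by
        unfold val
        have h1 : (b + 4) % 4 = b % 4 := by omega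
        have h2 : (b + 4) % 2 = b % 2 := by omega
        have h3 : (b + 4 = 0 ∨ m % 4 = 0) ↔ (b = 0 ∨ m % 4 = 0) := by omega
        simp only [h1, h2, h3]
      simp only [this]
    · intro b q hq
      exact mult4 (Ev_val m b q hm hm6 hq)
  · intro m n hm hm6 hn
    obtain ⟨b, q, hq, rfl⟩ := Nat.exists_eq_two_pow_mul_odd (n := n) (by omega)
    have hq' := Nat.odd_iff.mp hq
    rw [padic_eq _ _ hq']
    exact (Ev_val m b q hm hm6 hq').emult

end Pool.Agent.Results.MP_b3d406_nt.AutomaticValuation
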